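import Pool.Agent.H37R3.CopL

/-! Numbers of induced copies of lists of six-vertex 3-graphs, without the condition that all pairs
are covered. -/

set_option autoImplicit false
set_option maxRecDepth 100000
set_option maxHeartbeats 4000000
open Finset
open scoped Classical

namespace Pool.Agent.TH773.FA
open Pool.Agent.H122R2.N6 Pool.Agent.H37R3.Pen Pool.Agent.H37R3.Cop Pool.Agent.H37R3.CopL

/-- The mask `m` describes the six-vertex 3-graph `F`. -/
def Msk (m : ℕ) (F : Finset (Finset (Fin 6))) : Prop :=
  ∀ i j k : Fin 6, i < j → j < k → (bt m (ti i j k) = 1 ↔ ({i, j, k} : Finset (Fin 6)) ∈ F)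

variable {V : Type}

theorem induces_of_inj {H : Finset (Finset V)} {m : ℕ} {F : Finset (Finset (Fin 6))}
    (hm : Msk m F) {f : Fin 6 → V} (hinj : Function.Injective f) (hc : Copy (tri H) m f) :
    Induces F H (univ.image f) := by
  refine ⟨f, hinj, rfl, ?_⟩
  intro t ht
  obtain ⟨i, j, k, hij, hjk, rfl⟩ := sorted3 t ht
  rw [← hm i j k hij hjk, ← hc i j k hij hjk, tri_one]
  simp only [image_insert, image_singleton]

theorem card_eq_pair [Fintype V] (i j : Fin 6) (hij : i ≠ j) :
    ((univ : Finset (Fin 6 → V)).filter fun x => x i = x j).card ≤ Fintype.card V ^ 5 := by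
  have h1 : ((univ : Finset (Fin 6 → V)).filter fun x => x i = x j).card ≤
      (univ : Finset ({k : Fin 6 // k ≠ j} → V)).card := by
    refine card_le_card_of_injOn (fun x k => x k.1) (fun x _ => mem_univ _) ?_
    intro x hx y hy hxy
    have hx' := (mem_filter.mp hx).2
    have hy' := (mem_filter.mp hy).2
    funext k
    by_cases hk : k = j
    · have e := congrFun hxy ⟨i, hij⟩
      simp only at e
      rw [hk, ← hx', ← hy', e]
    · exact congrFun hxy ⟨k, hk⟩
  refine h1.trans ?_
  rw [card_univ, Fintype.card_fun]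
  have h2 : Fintype.card {k : Fin 6 // k ≠ j} = 5 := by
    rw [Fintype.card_subtype_compl, Fintype.card_fin, Fintype.card_subtype_eq]
  rw [h2]

theorem card_noninj [Fintype V] :
    ((univ : Finset (Fin 6 → V)).filter fun x => ¬ Function.Injective x).card ≤
      15 * Fintype.card V ^ 5 := by
  have h1 : ((univ : Finset (Fin 6 → V)).filter fun x => ¬ Function.Injective x) ⊆
      ((univ : Finset (Fin 6 × Fin 6)).filter fun p => p.1 < p.2).biUnion fun p =>
        (univ : Finset (Fin 6 → V)).filter fun x => x p.1 = x p.2 := by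
    intro x hx
    have hx' := (mem_filter.mp hx).2
    rw [Function.Injective] at hx'
    push Not at hx'
    obtain ⟨i, j, hij, hne⟩ := hx'
    rw [mem_biUnion]
    rcases lt_or_gt_of_ne hne with h | h
    · exact ⟨(i, j), by simp [h], by simp [hij]⟩
    · exact ⟨(j, i), by simp [h], by simp [hij]⟩
  refine (card_le_card h1).trans (card_biUnion_le.trans ?_)
  calc _ ≤ ∑ p ∈ (univ : Finset (Fin 6 × Fin 6)).filter (fun p => p.1 < p.2),
        Fintype.card V ^ 5 := by
        refine sum_le_sum fun p hp => card_eq_pair p.1 p.2 ?_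
        exact (mem_filter.mp hp).2.ne
    _ = 15 * Fintype.card V ^ 5 := by
        rw [sum_const, smul_eq_mul]
        congr 1

theorem sum_XL_le_inj [Fintype V] {H : Finset (Finset V)} {M : List ℕ}
    {Fs : List (Finset (Finset (Fin 6)))} (hM : ∀ m ∈ M, ∃ F ∈ Fs, Msk m F) :
    ∑ x : Fin 6 → V, XL (tri H) M x ≤
      720 * (((univ : Finset V).powersetCard 6).filter fun S => IndL Fs H S).card +
        15 * Fintype.card V ^ 5 := by
  set TA := ((univ : Finset V).powersetCard 6).filter fun S => IndL Fs H S with hTA
  have e1 : ∑ x : Fin 6 → V, XL (tri H) M x =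
      ((univ : Finset (Fin 6 → V)).filter fun x => RelL (tri H) M x).card := by
    rw [card_filter]; rfl
  have e2 : ((univ : Finset (Fin 6 → V)).filter fun x => RelL (tri H) M x).card ≤
      ((univ : Finset (Fin 6 → V)).filter fun x => RelL (tri H) M x ∧ Function.Injective x).card +
      ((univ : Finset (Fin 6 → V)).filter fun x => ¬ Function.Injective x).card := by
    refine le_trans (card_le_card ?_) (card_union_le _ _)
    intro x hx
    have hx' := (mem_filter.mp hx).2
    rw [mem_union]
    by_cases h : Function.Injective x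
    · left; exact mem_filter.mpr ⟨mem_univ _, hx', h⟩
    · right; exact mem_filter.mpr ⟨mem_univ _, h⟩
  have hmap : ∀ x ∈ (univ : Finset (Fin 6 → V)).filter
      (fun x => RelL (tri H) M x ∧ Function.Injective x), univ.image x ∈ TA := by
    intro x hx
    rw [mem_filter] at hx
    obtain ⟨-, ⟨g, hg, m, hm, hc⟩, hxi⟩ := hx
    obtain ⟨F, hF, hmF⟩ := hM m hm
    have hgs : Function.Surjective g := Finite.surjective_of_injective hg
    have him : univ.image (x ∘ g) = univ.image x := by
      ext v
      simp only [mem_image, mem_univ, true_and, Function.comp]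
      constructor
      · rintro ⟨i, hi⟩; exact ⟨g i, hi⟩
      · rintro ⟨i, hi⟩
        obtain ⟨j, hj⟩ := hgs i
        exact ⟨j, by rw [hj]; exact hi⟩
    have h1 := induces_of_inj hmF (hxi.comp hg) hc
    rw [him] at h1
    have hcard : (univ.image x).card = 6 := by
      rw [card_image_of_injective _ hxi]; rfl
    rw [hTA]
    exact mem_filter.mpr ⟨mem_powersetCard.mpr ⟨subset_univ _, hcard⟩, F, hF, h1⟩
  rw [e1]
  refine e2.trans (Nat.add_le_add ?_ card_noninj)
  rw [card_eq_sum_card_fiberwise hmap]
  calc _ ≤ ∑ S ∈ TA, 720 := by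
        refine sum_le_sum fun S hS => ?_
        have hS6 : S.card = 6 := (mem_powersetCard.mp (mem_filter.mp hS).1).2
        refine (card_le_card ?_).trans (fiber_le S hS6)
        intro x hx
        rw [mem_filter] at hx ⊢
        exact ⟨mem_univ _, hx.2⟩
    _ = 720 * TA.card := by rw [sum_const, smul_eq_mul, mul_comm]

end Pool.Agent.TH773.FA
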