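import Pool.Agent.TH773.FA.RowD
import Pool.Agent.H122R2.N6.Util

set_option autoImplicit false
set_option maxRecDepth 100000
open Finset

namespace Pool.Agent.TH773.FA
open Pool.Agent.H122R2.N6

theorem lanes_eq (n : ℕ) (f : ℕ → ℕ) : lanes n f = ∑ j ∈ range n, f j * (2 ^ 96) ^ j := by
  unfold lanes
  rw [nsum_eq]
  refine sum_congr rfl fun j _ => ?_
  have : Nat.shiftLeft (f j) (Nat.mul 96 j) = f j * 2 ^ (96 * j) := Nat.shiftLeft_eq _ _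
  rw [this, pow_mul]

theorem lane_lt {X : ℕ} (n : ℕ) {f : ℕ → ℕ} (hf : ∀ j < n, f j < X) :
    ∑ j ∈ range n, f j * X ^ j < X ^ n := by
  induction n with
  | zero => simp
  | succ n ih =>
    rw [sum_range_succ, pow_succ]
    have h1 := ih fun j hj => hf j (Nat.lt_succ_of_lt hj)
    have h2 := hf n (Nat.lt_succ_self n)
    have h3 : (f n + 1) * X ^ n ≤ X * X ^ n := Nat.mul_le_mul_right _ h2
    nlinarith

theorem lane_inj {X : ℕ} (n : ℕ) {f g : ℕ → ℕ} (hf : ∀ j < n, f j < X) (hg : ∀ j < n, g j < X)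
    (h : ∑ j ∈ range n, f j * X ^ j = ∑ j ∈ range n, g j * X ^ j) : ∀ j < n, f j = g j := by
  induction n with
  | zero => intro j hj; omega
  | succ n ih =>
    rw [sum_range_succ, sum_range_succ] at h
    have hf' := fun j (hj : j < n) => hf j (Nat.lt_succ_of_lt hj)
    have hg' := fun j (hj : j < n) => hg j (Nat.lt_succ_of_lt hj)
    have h1 := lane_lt n hf'
    have h2 := lane_lt n hg'
    have hX : 0 < X ^ n := lt_of_le_of_lt (Nat.zero_le _) h1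
    have h3 : f n = g n := by
      have e1 : (∑ j ∈ range n, f j * X ^ j + f n * X ^ n) / X ^ n = f n := by
        rw [Nat.add_mul_div_right _ _ hX, Nat.div_eq_of_lt h1, Nat.zero_add]
      have e2 : (∑ j ∈ range n, g j * X ^ j + g n * X ^ n) / X ^ n = g n := by
        rw [Nat.add_mul_div_right _ _ hX, Nat.div_eq_of_lt h2, Nat.zero_add]
      rw [← e1, ← e2, h]
    intro j hj
    rcases Nat.lt_succ_iff_lt_or_eq.mp hj with hj | rfl
    · refine ih hf' hg' ?_ j hj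
      rw [h3] at h
      exact Nat.add_right_cancel h
    · exact h3

theorem sum_le_of {K a : ℕ} {f : ℕ → ℕ} (h : ∀ k, f k ≤ a) : ∑ k ∈ range K, f k ≤ K * a := by
  calc ∑ k ∈ range K, f k ≤ ∑ k ∈ range K, a := sum_le_sum fun k _ => h k
    _ = K * a := by rw [sum_const, card_range, smul_eq_mul]

theorem alg1 (K n X A : ℕ) (w : ℕ → ℕ) (l : ℕ → ℕ → ℕ) (i : ℕ) :
    (∑ k ∈ range K, w k * l i k * ∑ j ∈ range n, l j k * X ^ j) + A * ∑ j ∈ range n, X ^ j =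
      ∑ j ∈ range n, (∑ k ∈ range K, w k * (l i k * l j k) + A) * X ^ j := by
  have e : ∑ k ∈ range K, w k * l i k * ∑ j ∈ range n, l j k * X ^ j =
      ∑ j ∈ range n, (∑ k ∈ range K, w k * (l i k * l j k)) * X ^ j := by
    simp only [mul_sum, sum_mul]
    rw [sum_comm]
    exact sum_congr rfl fun j _ => sum_congr rfl fun k _ => by ring
  rw [e, mul_sum, ← sum_add_distrib]
  exact sum_congr rfl fun j _ => by ring

theorem alg2 (n X B s : ℕ) (q t : ℕ → ℕ) :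
    (∑ j ∈ range n, q j * X ^ j) + B * (s * ∑ j ∈ range n, X ^ j + ∑ j ∈ range n, t j * X ^ j) =
      ∑ j ∈ range n, (q j + B * (s + t j)) * X ^ j := by
  rw [mul_sum, ← sum_add_distrib, mul_sum, ← sum_add_distrib]
  exact sum_congr rfl fun j _ => by ring

theorem rowc_form {K : ℕ} {w : ℕ → ℕ} {l : ℕ → ℕ → ℕ} {q : ℕ → ℕ → ℕ} {B BB O i : ℕ}
    (h : rowc K w l q B BB O i = true) (n X : ℕ) (hn : n = 64) (hX : X = 2 ^ 96) :
    ∑ j ∈ range n, (∑ k ∈ range K, w k * (l i k * l j k) + (BB * ∑ k ∈ range K, w k + O)) * X ^ j =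
      ∑ j ∈ range n, (q i j + B * (∑ k ∈ range K, w k * l i k + ∑ k ∈ range K, w k * l j k)) *
        X ^ j := by
  rw [← alg1, ← alg2]
  have h1 := Nat.eq_of_beq_eq_true h
  unfold sS sL at h1
  rw [← hn] at h1
  simp only [lanes_eq] at h1
  rw [← hX] at h1
  simp only [nsum_eq, Nat.add_eq, Nat.mul_eq, Nat.one_mul] at h1
  exact h1

theorem rowc_true {K : ℕ} {w : ℕ → ℕ} {l : ℕ → ℕ → ℕ} {q : ℕ → ℕ → ℕ} {B BB O i : ℕ}
    (hK : K ≤ 128) (hw : ∀ k, w k < 2 ^ 49) (hl : ∀ i k, l i k < 2 ^ 14) (hq : ∀ i j, q i j < 2 ^ 64)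
    (hB : B ≤ 2 ^ 13) (hBB : BB ≤ 2 ^ 26) (hO : O ≤ 2 ^ 64) (h : rowc K w l q B BB O i = true) :
    ∀ j < 64, ∑ k ∈ range K, w k * (l i k * l j k) + (BB * ∑ k ∈ range K, w k + O) =
      q i j + B * (∑ k ∈ range K, w k * l i k + ∑ k ∈ range K, w k * l j k) := by
  obtain ⟨n, hn⟩ : ∃ n : ℕ, n = 64 := ⟨_, rfl⟩
  obtain ⟨X, hX⟩ : ∃ X : ℕ, X = 2 ^ 96 := ⟨_, rfl⟩
  have h1 := rowc_form h n X hn hX
  have b1 : ∀ i j, ∑ k ∈ range K, w k * (l i k * l j k) ≤ 2 ^ 84 := by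
    intro i j
    calc _ ≤ K * (2 ^ 49 * (2 ^ 14 * 2 ^ 14)) := sum_le_of fun k =>
          Nat.mul_le_mul (hw k).le (Nat.mul_le_mul (hl i k).le (hl j k).le)
      _ ≤ 128 * (2 ^ 49 * (2 ^ 14 * 2 ^ 14)) := Nat.mul_le_mul_right _ hK
      _ = 2 ^ 84 := by norm_num
  have b2 : ∑ k ∈ range K, w k ≤ 2 ^ 56 := by
    calc _ ≤ K * 2 ^ 49 := sum_le_of fun k => (hw k).le
      _ ≤ 128 * 2 ^ 49 := Nat.mul_le_mul_right _ hK
      _ = 2 ^ 56 := by norm_num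
  have b3 : ∀ i, ∑ k ∈ range K, w k * l i k ≤ 2 ^ 70 := by
    intro i
    calc _ ≤ K * (2 ^ 49 * 2 ^ 14) := sum_le_of fun k => Nat.mul_le_mul (hw k).le (hl i k).le
      _ ≤ 128 * (2 ^ 49 * 2 ^ 14) := Nat.mul_le_mul_right _ hK
      _ = 2 ^ 70 := by norm_num
  rw [← hn]
  refine lane_inj n ?_ ?_ h1
  · intro j _
    have h2 := b1 i j
    have h3 : BB * ∑ k ∈ range K, w k ≤ 2 ^ 26 * 2 ^ 56 := Nat.mul_le_mul hBB b2
    have h4 : (2 : ℕ) ^ 84 + (2 ^ 26 * 2 ^ 56 + 2 ^ 64) < 2 ^ 96 := by norm_num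
    rw [hX]
    exact lt_of_le_of_lt (Nat.add_le_add h2 (Nat.add_le_add h3 hO)) h4
  · intro j _
    have h3 : B * (∑ k ∈ range K, w k * l i k + ∑ k ∈ range K, w k * l j k) ≤
        2 ^ 13 * (2 ^ 70 + 2 ^ 70) := Nat.mul_le_mul hB (Nat.add_le_add (b3 i) (b3 j))
    have h4 : (2 : ℕ) ^ 64 + 2 ^ 13 * (2 ^ 70 + 2 ^ 70) < 2 ^ 96 := by norm_num
    rw [hX]
    exact lt_of_le_of_lt (Nat.add_le_add (hq i j).le h3) h4

theorem expand (s : Finset ℕ) (w u v : ℕ → ℕ) (B : ℤ) :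
    ∑ k ∈ s, (w k : ℤ) * ((u k : ℤ) - B) * ((v k : ℤ) - B) =
      ∑ k ∈ s, (w k : ℤ) * ((u k : ℤ) * (v k : ℤ)) + B ^ 2 * ∑ k ∈ s, (w k : ℤ)
        - B * (∑ k ∈ s, (w k : ℤ) * (u k : ℤ) + ∑ k ∈ s, (w k : ℤ) * (v k : ℤ)) := by
  rw [mul_add, mul_sum, mul_sum, mul_sum, ← sum_add_distrib, ← sum_add_distrib, ← sum_sub_distrib]
  exact sum_congr rfl fun k _ => by ring

/-- the entries of a checked row -/
theorem rowc_entry {K : ℕ} {w : ℕ → ℕ} {l : ℕ → ℕ → ℕ} {q : ℕ → ℕ → ℕ} {O i : ℕ}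
    (hK : K ≤ 128) (hw : ∀ k, w k < 2 ^ 49) (hl : ∀ i k, l i k < 2 ^ 14) (hq : ∀ i j, q i j < 2 ^ 64)
    (hO : O ≤ 2 ^ 64) (h : rowc K w l q 8192 67108864 O i = true) {j : ℕ} (hj : j < 64) :
    (q i j : ℤ) = ∑ k ∈ range K, (w k : ℤ) * ((l i k : ℤ) - 8192) * ((l j k : ℤ) - 8192) + O := by
  have h1 := rowc_true hK hw hl hq (by norm_num) (by norm_num) hO h j hj
  have h2 := congrArg (fun n : ℕ => (n : ℤ)) h1
  push_cast at h2
  rw [expand (range K) w (l i) (l j) 8192]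
  linarith

end Pool.Agent.TH773.FA
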