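import Pool.Agent.TH773.FA.Cpy
import Pool.Agent.TH773.FA.Row
import Pool.Agent.H122R2.N6.KK

/-! The conclusion drawn from a certificate. -/

set_option autoImplicit false
set_option maxRecDepth 100000
set_option maxHeartbeats 4000000
open Finset
open scoped Classical

namespace Pool.Agent.TH773.FA
open Pool.Agent.H122R2.N6 Pool.Agent.H37R3.Pen Pool.Agent.H37R3.Cop Pool.Agent.H37R3.CopL

theorem fin_gen {V : Type} [Fintype V] {H : Finset (Finset V)} (hH : ∀ e ∈ H, e.card = 3)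
    (hF : K43Free H) {K K2 T C P D : ℕ} {q4 : ℕ → ℕ → ℕ → ℕ} {q2 : ℕ → ℕ → ℕ}
    {W : ℕ → ℕ → ℕ} {l : ℕ → ℕ → ℕ → ℕ} {W2 : ℕ → ℕ} {l2 : ℕ → ℕ → ℕ}
    {LST : List ℕ} {TAB : List (ℕ × ℕ × ℕ)} {M : List ℕ} {Fs : List (Finset (Finset (Fin 6)))}
    (hq4 : ∀ c i j, c < 16 → i < 64 → j < 64 → (q4 c i j : ℤ) =
      ∑ k ∈ range K, (W c k : ℤ) * ((l c i k : ℤ) - 8192) * ((l c j k : ℤ) - 8192)
        + 4611686018427387904)
    (hq2 : ∀ i j, i < 16 → j < 16 → (q2 i j : ℤ) =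
      ∑ k ∈ range K2, (W2 k : ℤ) * ((l2 i k : ℤ) - 8192) * ((l2 j k : ℤ) - 8192)
        + (4611686018427387904 + (T : ℤ) * ((kk i j : ℕ) : ℤ)))
    (cs4 : sym4 q4 = true) (cs2 : sym2 q2 = true)
    (hc : ∀ b012 b013 b023 b123 b014 b024 b124 b034 b134 b234 : ℕ, Bt b012 → Bt b013 → Bt b023 →
      Bt b123 → Bt b014 → Bt b024 → Bt b124 → Bt b034 → Bt b134 → Bt b234 →
      tg b012 b013 b023 b123 b014 b024 b124 b034 b134 b234 = 4 →
      chkX q4 q2 C P LST b012 b013 b023 b123 b014 b024 b124 b034 b134 b234 = true)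
    (iso : isoM LST TAB M = true) (hM : ∀ m ∈ M, ∃ F ∈ Fs, Msk m F)
    (hC : C = D + 276701161105643274240) :
    1080 * T * Fintype.card V ^ 3 * H.card ≤ D * Fintype.card V ^ 6 + P *
      (720 * (((univ : Finset V).powersetCard 6).filter fun S => IndL Fs H S).card +
        15 * Fintype.card V ^ 5) := by
  have hE := tri_sy H
  have hb := boundX (tri H) hE K K2 C P (XL6 (tri H) M) q4 W l q2 W2 l2 8192 4611686018427387904
    4611686018427387904 (fun k => (T : ℤ) * (k : ℤ)) hq4 hq2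
    (leafX_all hE (tri_noK4 hH hF) (XL6_0 (tri H) _) (XL6_1 (tri H) _) (XL6_2 (tri H) _)
      (XL6_3 (tri H) _) (hmemL_of hE iso) cs4 cs2 hc)
  rw [T2_lin (tri H) hE] at hb
  simp only [XL_eq] at hb
  have h1 : ∑ x : Fin 6 → V, ((XL (tri H) M x : ℕ) : ℤ) ≤ ((720 *
      (((univ : Finset V).powersetCard 6).filter fun S => IndL Fs H S).card +
        15 * Fintype.card V ^ 5 : ℕ) : ℤ) := by
    exact_mod_cast sum_XL_le_inj hM
  have h2 : ((6 * H.card : ℕ) : ℤ) ≤ ∑ a, ∑ b, ∑ c, ((tri H a b c : ℕ) : ℤ) := by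
    exact_mod_cast six_card_le hH
  have h3 : (0 : ℤ) ≤ 180 * (T : ℤ) * (Fintype.card V : ℤ) ^ 3 := by positivity
  have h4 := mul_le_mul_of_nonneg_left h2 h3
  have h5 : (0 : ℤ) ≤ (P : ℤ) := by positivity
  have h6 := mul_le_mul_of_nonneg_left h1 h5
  have hC' : (C : ℤ) = (D : ℤ) + 276701161105643274240 := by exact_mod_cast hC
  rw [hC'] at hb
  have h7 : (1080 * (T : ℤ) * (Fintype.card V : ℤ) ^ 3 * (H.card : ℤ)) ≤
      (D : ℤ) * (Fintype.card V : ℤ) ^ 6 + (P : ℤ) * (((720 *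
      (((univ : Finset V).powersetCard 6).filter fun S => IndL Fs H S).card +
        15 * Fintype.card V ^ 5 : ℕ) : ℤ)) := by
    push_cast at h4 h6 ⊢
    linarith
  exact_mod_cast h7

/-- the table for all sixteen labelled four-vertex structures from the tables for the four
representatives -/
theorem q4_of {K O : ℕ} {rho : ℕ → ℕ} {pc : ℕ → ℕ → ℕ} {tq : ℕ → ℕ → ℕ → ℕ} {w : ℕ → ℕ → ℕ}
    {l : ℕ → ℕ → ℕ → ℕ} (hK : K ≤ 128) (hw : ∀ r k, w r k < 2 ^ 49) (hl : ∀ r i k, l r i k < 2 ^ 14)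
    (hq : ∀ r i j, tq r i j < 2 ^ 64) (hO : O ≤ 2 ^ 64)
    (rng : (nall 16 fun c => and (Nat.blt (rho c) 4) (nall 64 fun i => Nat.blt (pc c i) 64)) = true)
    (h : ∀ r, r < 4 → (nall 64 fun i => rowc K (w r) (l r) (tq r) 8192 67108864 O i) = true)
    (c i j : ℕ) (hc : c < 16) (hi : i < 64) (hj : j < 64) :
    (tq (rho c) (pc c i) (pc c j) : ℤ) =
      ∑ k ∈ range K, (w (rho c) k : ℤ) * ((l (rho c) (pc c i) k : ℤ) - 8192) *
        ((l (rho c) (pc c j) k : ℤ) - 8192) + O := by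
  have h1 := nall_true rng c hc
  rw [Bool.and_eq_true] at h1
  have hr : rho c < 4 := Nat.le_of_ble_eq_true h1.1
  have hp : ∀ i < 64, pc c i < 64 := fun i hi => Nat.le_of_ble_eq_true (nall_true h1.2 i hi)
  exact rowc_entry hK (hw _) (hl _) (hq _) hO (nall_true (h _ hr) _ (hp i hi)) (hp j hj)

theorem q2_of {K T : ℕ} {w : ℕ → ℕ} {l : ℕ → ℕ → ℕ} {q2 : ℕ → ℕ → ℕ}
    (h : (nall 16 fun i => nall 16 fun j => g2c K w l q2 T i j) = true)
    (i j : ℕ) (hi : i < 16) (hj : j < 16) : (q2 i j : ℤ) =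
      ∑ k ∈ range K, (w k : ℤ) * ((l i k : ℤ) - 8192) * ((l j k : ℤ) - 8192)
        + (4611686018427387904 + (T : ℤ) * ((kk i j : ℕ) : ℤ)) := by
  have h := Nat.eq_of_beq_eq_true (nall_true (nall_true h i hi) j hj)
  unfold sS sL at h
  simp only [nsum_eq] at h
  have h2 := congrArg (fun n : ℕ => (n : ℤ)) h
  simp only [Nat.add_eq, Nat.mul_eq] at h2
  push_cast at h2
  rw [expand (range K) w (l i) (l j) 8192]
  linarith

end Pool.Agent.TH773.FA
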