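import Pool.Agent.TH773.FA.RowD

set_option autoImplicit false
set_option maxRecDepth 100000

namespace Pool.Agent.TH773.FA
open Pool.Agent.H122R2.N6

def TP : ℕ := 0x3f3b2f2b1f1b0f0b3e3a2e2a1e1a0e0a3d392d291d190d093c382c281c180c0837332723171307033632262216120602353125211511050134302420141004003f3b3e3a3d393c382f2b2e2a2d292c281f1b1e1a1d191c180f0b0e0a0d090c0837333632353134302723262225212420171316121511141007030602050104003f1f3d1d371735153b1b3919331331112f0f2d0d270725052b0b2909230321013e1e3c1c361634143a1a3818321230102e0e2c0c260624042a0a2808220220003f3e3b3a3d3c39382f2e2b2a2d2c2928373633323534313027262322252421201f1e1b1a1d1c19180f0e0b0a0d0c0908171613121514111007060302050401003f3d1f1d373517153b391b19333113113e3c1e1c363416143a381a18323012102f2d0f0d272507052b290b09232103012e2c0e0c262406042a280a08222002003f3d3b393e3c3a381f1d1b191e1c1a18373533313634323017151311161412102f2d2b292e2c2a280f0d0b090e0c0a08272523212624222007050301060402003f372f273e362e261f170f071e160e063d352d253c342c241d150d051c140c043b332b233a322a221b130b031a120a02393129213830282019110901181008003f3e3d3c3b3a393837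363534333231302f2e2d2c2b2a292827262524232221201f1e1d1c1b1a191817161514131211100f0e0d0c0b0a090807060504030201003f3d37351f1d17153e3c36341e1c16143b3933311b1913113a3832301a1812102f2d27250f0d07052e2c26240e0c06042b2923210b0903012a2822200a0802003f3d3e3c3b393a3837353634333132301f1d1e1c1b191a1817151614131112102f2d2e2c2b292a2827252624232122200f0d0e0c0b090a0807050604030102003f373e362f272e263d353c342d252c241f171e160f070e061d151c140d050c043b333a322b232a2239313830292128201b131a120b030a0219111810090108003f3e3d3c3b3a393837363534333231302f2e2d2c2b2a292827262524232221201f1e1d1c1b1a191817161514131211100f0e0d0c0b0a090807060504030201003f3e37362f2e27263d3c35342d2c25243b3a33322b2a232239383130292821201f1e17160f0e07061d1c15140d0c05041b1a13120b0a030219181110090801003f3e3d3c3b3a393837363534333231302f2e2d2c2b2a292827262524232221201f1e1d1c1b1a191817161514131211100f0e0d0c0b0a090807060504030201003f3e3d3c3b3a393837363534333231302f2e2d2c2b2a292827262524232221201f1e1d1c1b1a191817161514131211100f0e0d0c0b0a09080706050403020100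
def RT : ℕ := 0x332322132212110
/-- the representative of a labelled four-vertex structure -/
def rho (c : ℕ) : ℕ := Nat.mod (Nat.shiftRight RT (Nat.mul 4 c)) 16
def pc (c i : ℕ) : ℕ := Nat.mod (Nat.shiftRight TP (Nat.mul 8 (Nat.add (Nat.mul 64 c) i))) 256

theorem rng : (nall 16 fun c => and (Nat.blt (rho c) 4) (nall 64 fun i => Nat.blt (pc c i) 64)) = true := by
  decide +kernel

end Pool.Agent.TH773.FA
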